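import Pool.Agent.W2helper3.BQ.Stm3

/-!
# Project BQ3 (owner helper3), piece KC1 (helper29): the kernel representation for fixed `v`
-/

set_option autoImplicit false

open MeasureTheory Set Topology
open scoped SchwartzMap ENNReal ContDiff BigOperators

namespace Pool.Agent.W2helper29.BQ

open Pool.Agent.W2helper3.BQ

theorem den_ne (v τ : ℝ) (hv : 0 < v) :
    ‖1 - Complex.exp (-(v / 2 : ℝ) + τ * Complex.I)‖ ≠ 0 := by
  rw [norm_ne_zero_iff, sub_ne_zero]
  intro h
  have h1 : ‖Complex.exp (-(v / 2 : ℝ) + τ * Complex.I)‖ = 1 := by rw [← h]; simp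
  rw [Complex.norm_exp] at h1
  simp at h1
  linarith

theorem mk_cont (v : ℝ) (hv : 0 < v) : Continuous (mk v) := by
  unfold mk
  apply Continuous.div continuous_const
  · fun_prop
  · intro τ
    exact pow_ne_zero _ (den_ne v τ hv)

theorem mk_nonneg (v τ : ℝ) : 0 ≤ mk v τ := by
  unfold mk
  positivity

/-- summability of the majorant of the modes -/
theorem summ (n : ℕ) (v : ℝ) (hv : 0 < v) :
    Summable fun l : ℕ => (((l + 1 : ℕ) : ℝ) + 1) ^ n * Real.exp (-(((l + 1 : ℕ) : ℝ) / 2 * v)) := by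
  have h0 : Summable fun l : ℕ => (l : ℝ) ^ n * Real.exp (-(v / 2) * l) := by
    apply Real.summable_pow_mul_exp_neg_nat_mul
    linarith
  have h1 := (summable_nat_add_iff (f := fun l : ℕ => (l : ℝ) ^ n * Real.exp (-(v / 2) * l)) 2).2 h0
  have h2 := h1.mul_left (Real.exp (v / 2))
  refine h2.congr ?_
  intro l
  have : Real.exp (-(((l + 1 : ℕ) : ℝ) / 2 * v)) =
      Real.exp (v / 2) * Real.exp (-(v / 2) * ((l + 2 : ℕ) : ℝ)) := by
    rw [← Real.exp_add]
    congr 1
    push_cast
    ring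
  rw [this]
  push_cast
  ring

theorem p_KC1 : P_KC1 := by
  intro hKAP hKB n hn
  obtain ⟨C1, hC1, hkap⟩ := hKAP n hn
  obtain ⟨C, hC, hker⟩ := hKB hKAP n hn
  refine ⟨C, hC, ?_⟩
  intro v L g hv hg hL t
  have hpi : (0 : ℝ) ≤ 2 * Real.pi := by positivity
  set F : ℕ → ℝ → ℂ := fun l s => ((kap n (l + 1) v : ℝ) : ℂ) *
    Complex.exp (((l + 1 : ℕ) : ℂ) * ((t - s : ℝ) : ℂ) * Complex.I) * g s with hF
  set b : ℕ → ℝ := fun l => C1 * ((((l + 1 : ℕ) : ℝ) + 1) ^ n *
    Real.exp (-(((l + 1 : ℕ) : ℝ) / 2 * v))) with hb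
  have hbs : Summable b := (summ n v hv).mul_left C1
  have hFb : ∀ l s, ‖F l s‖ ≤ b l * ‖g s‖ := by
    intro l s
    rw [hF]
    simp only [norm_mul]
    apply mul_le_mul_of_nonneg_right _ (norm_nonneg _)
    have h1 : ‖Complex.exp (((l + 1 : ℕ) : ℂ) * ((t - s : ℝ) : ℂ) * Complex.I)‖ = 1 := by
      have := Complex.norm_exp_ofReal_mul_I (((l + 1 : ℕ) : ℝ) * (t - s))
      rw [← this]
      congr 2
      push_cast
      ring
    rw [h1, mul_one, Complex.norm_real, Real.norm_eq_abs]
    have := hkap (l + 1) v hv.le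
    rw [hb]
    simpa [mul_assoc] using this
  have hFc : ∀ l, Continuous (F l) := by
    intro l
    rw [hF]
    fun_prop
  set K : ℝ → ℂ := fun τ => ∑' l : ℕ, ((kap n (l + 1) v : ℝ) : ℂ) *
    Complex.exp (((l + 1 : ℕ) : ℂ) * τ * Complex.I) with hK
  have hsumF : ∀ s, HasSum (fun l => F l s) (K (t - s) * g s) := by
    intro s
    have h1 : Summable fun l => F l s :=
      Summable.of_norm_bounded (hbs.mul_right ‖g s‖) (fun l => hFb l s)
    have h2 : K (t - s) * g s = ∑' l, F l s := by
      rw [hK, hF]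
      simp only
      rw [tsum_mul_right]
    rw [h2]
    exact h1.hasSum
  have hint : HasSum (fun l => ∫ s in (0 : ℝ)..(2 * Real.pi), F l s)
      (∫ s in (0 : ℝ)..(2 * Real.pi), K (t - s) * g s) := by
    apply intervalIntegral.hasSum_integral_of_dominated_convergence (fun l s => b l * ‖g s‖)
    · intro l
      exact (hFc l).aestronglyMeasurable
    · intro l
      exact Filter.Eventually.of_forall fun s _ => hFb l s
    · exact Filter.Eventually.of_forall fun s _ => hbs.mul_right _
    · have : (fun s => ∑' l, b l * ‖g s‖) = fun s => (∑' l, b l) * ‖g s‖ := by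
        funext s
        rw [tsum_mul_right]
      rw [this]
      apply Continuous.intervalIntegrable
      fun_prop
    · exact Filter.Eventually.of_forall fun s _ => hsumF s
  have hFint : ∀ l : ℕ, ∫ s in (0 : ℝ)..(2 * Real.pi), F l s =
      Complex.exp (((l + 1 : ℕ) : ℂ) * t * Complex.I) * (((kap n (l + 1) v : ℝ) : ℂ) *
        ∫ s in (0 : ℝ)..(2 * Real.pi), Complex.exp (-(((l + 1 : ℕ) : ℂ) * s * Complex.I)) * g s) := by
    intro l
    rw [← intervalIntegral.integral_const_mul, ← intervalIntegral.integral_const_mul]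
    congr 1
    funext s
    rw [hF]
    simp only
    have : Complex.exp (((l + 1 : ℕ) : ℂ) * ((t - s : ℝ) : ℂ) * Complex.I) =
        Complex.exp (((l + 1 : ℕ) : ℂ) * t * Complex.I) *
          Complex.exp (-(((l + 1 : ℕ) : ℂ) * s * Complex.I)) := by
      rw [← Complex.exp_add]
      congr 1
      push_cast
      ring
    rw [this]
    ring
  have hpc : (((1 / (2 * Real.pi) : ℝ)) : ℂ) ≠ 0 := by
    have : (1 / (2 * Real.pi) : ℝ) ≠ 0 := by positivity
    exact_mod_cast this
  have hzero : ∀ l, l ∉ Finset.range L → ∫ s in (0 : ℝ)..(2 * Real.pi), F l s = 0 := by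
    intro l hl
    rw [Finset.mem_range, not_lt] at hl
    have h1 := hL (l + 1) (by omega)
    unfold avc at h1
    rw [hFint l]
    rcases mul_eq_zero.1 h1 with h | h
    · exact absurd h hpc
    · rw [h]
      simp
  have hfin : ∫ s in (0 : ℝ)..(2 * Real.pi), K (t - s) * g s =
      ∑ l ∈ Finset.range L, ∫ s in (0 : ℝ)..(2 * Real.pi), F l s :=
    hint.unique (hasSum_sum_of_ne_finset_zero hzero)
  have hsum : ∑ l ∈ Finset.Icc 1 L, Complex.exp ((l : ℂ) * t * Complex.I) * (((kap n l v : ℝ) : ℂ) *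
      avc (fun s => Complex.exp (-((l : ℂ) * s * Complex.I)) * g s)) =
      (((1 / (2 * Real.pi) : ℝ)) : ℂ) * ∫ s in (0 : ℝ)..(2 * Real.pi), K (t - s) * g s := by
    rw [hfin, Finset.mul_sum]
    have hI : Finset.Icc 1 L = (Finset.range L).map ⟨fun l => l + 1, add_left_injective 1⟩ := by
      ext l
      simp only [Finset.mem_Icc, Finset.mem_map, Finset.mem_range, Function.Embedding.coeFn_mk]
      constructor
      · rintro ⟨h1, h2⟩
        exact ⟨l - 1, by omega, by omega⟩
      · rintro ⟨a, ha, rfl⟩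
        omega
    rw [hI, Finset.sum_map]
    apply Finset.sum_congr rfl
    intro l _
    simp only [Function.Embedding.coeFn_mk]
    rw [hFint l]
    unfold avc
    ring
  rw [hsum, norm_mul, Complex.norm_real, Real.norm_of_nonneg (by positivity)]
  have hle : ‖∫ s in (0 : ℝ)..(2 * Real.pi), K (t - s) * g s‖ ≤
      ∫ s in (0 : ℝ)..(2 * Real.pi), C * (mk v (t - s) * ‖g s‖) := by
    apply intervalIntegral.norm_integral_le_of_norm_le hpi
    · refine Filter.Eventually.of_forall fun s _ => ?_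
      rw [norm_mul, ← mul_assoc]
      apply mul_le_mul_of_nonneg_right _ (norm_nonneg _)
      have := hker v (t - s) hv
      rw [hK]
      simpa using this
    · apply Continuous.intervalIntegrable
      have := mk_cont v hv
      fun_prop
  rw [intervalIntegral.integral_const_mul] at hle
  unfold av
  have hp2 : (0 : ℝ) ≤ 1 / (2 * Real.pi) := by positivity
  calc 1 / (2 * Real.pi) * ‖∫ s in (0 : ℝ)..(2 * Real.pi), K (t - s) * g s‖
      ≤ 1 / (2 * Real.pi) * (C * ∫ s in (0 : ℝ)..(2 * Real.pi), mk v (t - s) * ‖g s‖) :=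
        mul_le_mul_of_nonneg_left hle hp2
    _ = _ := by ring

end Pool.Agent.W2helper29.BQ
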